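import Mathlib

namespace Pool.Agent.H.MP_6838a0_co.A

open Finset

variable {n : ℕ} (w : Fin n → Fin n → ℕ)

def b (x y : Fin n → ℝ) : ℝ := ∑ k, ∑ l, w k l * (x k * (y k - y l))

theorem ints (N a c d : ℕ) (h : a + c + d = N) (e : Even c) (v : a * c + c * d + 4 * (a * d) < N) :
    c + d = 0 ∨ a + d = 0 ∨ a + c = 0 ∨ (a + d = 1 ∧ 3 ≤ N) := by
  subst h
  obtain ⟨c, rfl⟩ := e
  rcases a with _ | _ | a <;> rcases d with _ | _ | d <;> rcases c with _ | c <;>
    first | omega | (exfalso; nlinarith)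

theorem row (i : Fin n) (h0 : w i i = 0) (h2 : ∀ j, w i j ≤ 2) (s : ℕ) (hs : ∑ j, w i j = s)
    (he : Even s) (N : ℕ) (hN : n = N + 1) (N0 : 0 < N) (t : ℝ)
    (h : ∑ j ∈ univ.erase i, ((w i j : ℝ) - t) ^ 2 + (s - N * t) ^ 2 ≤ 1 - 1 / n) :
    |s - N * t| < 1 ∧ ((∀ j, j ≠ i → N * w i j = s) ∨ (3 ≤ N ∧ (s + 1 = N ∨ s = N + 1) ∧
      ∃ j, j ≠ i ∧ w i j ≠ 1 ∧ ∀ l, l ≠ i → l ≠ j → w i l = 1)) := by
  have n0 : (0 : ℝ) < n := by exact_mod_cast (by omega : 0 < n)
  have p := sum_nonneg fun j (_ : j ∈ univ.erase i) => sq_nonneg ((w i j : ℝ) - t)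
  have q : (0 : ℝ) < 1 / n := by positivity
  refine ⟨(sq_lt_one_iff_abs_lt_one _).1 (by linarith), ?_⟩
  let K (c : ℕ) := #{j ∈ univ.erase i | w i j = c}
  have g (f : ℕ → ℝ) : ∑ j ∈ univ.erase i, f (w i j) = K 0 * f 0 + K 1 * f 1 + K 2 * f 2 := by
    simp only [K, card_filter, Nat.cast_sum, sum_mul, ← sum_add_distrib]
    refine sum_congr rfl fun j _ => ?_
    have := h2 j
    interval_cases w i j <;> simp
  have g0 : K 0 + K 1 + K 2 = N := by
    have := g fun _ => 1
    simp [hN] at this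
    exact_mod_cast this.symm
  have g1 : s = K 1 + 2 * K 2 := by
    have := g fun x => x
    rw [← Nat.cast_sum, sum_erase _ h0, hs] at this
    exact_mod_cast this.trans (by push_cast; ring : _ = (K 1 + 2 * K 2 : ℝ))
  rw [g fun x => (x - t) ^ 2] at h
  have v : K 0 * K 1 + K 1 * K 2 + 4 * (K 0 * K 2) < N := by
    have a0 : (K 0 + K 1 + K 2 : ℝ) = N := by exact_mod_cast g0
    have a1 : (s : ℝ) = K 1 + 2 * K 2 := by exact_mod_cast g1
    have N1 : (0 : ℝ) < N := by exact_mod_cast N0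
    have : (K 0 * K 1 + K 1 * K 2 + 4 * (K 0 * K 2) : ℝ) < N := by
      have e : (K 0 * K 1 + K 1 * K 2 + 4 * (K 0 * K 2) : ℝ) + (s - N * t) ^ 2 =
          N * (K 0 * (0 - t) ^ 2 + K 1 * (1 - t) ^ 2 + K 2 * (2 - t) ^ 2) := by
        rw [a1, ← a0]
        ring
      push_cast at h
      nlinarith [sq_nonneg (s - N * t)]
    exact_mod_cast this
  have z (c : ℕ) (j : Fin n) (hj : j ≠ i) (e : w i j = c) : 0 < K c :=
    card_pos.2 ⟨j, by simp [hj, e]⟩
  rcases ints N _ _ _ g0 (by rw [g1] at he; simpa [Nat.even_add] using he) v with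
    a | a | a | ⟨a, a3⟩
  iterate 3
    refine .inl fun j hj => ?_
    have := z _ j hj rfl
    have := h2 j
    interval_cases w i j <;> omega
  refine .inr ⟨a3, by omega, ?_⟩
  obtain ⟨j, hj⟩ := card_eq_one.1 (show #{j ∈ univ.erase i | ¬ w i j = 1} = 1 by
    have := card_filter_add_card_filter_not (s := univ.erase i) (w i · = 1)
    simp only [card_erase_of_mem (mem_univ i), card_univ, Fintype.card_fin] at this
    change K 1 + _ = _ at this
    omega)
  have m (l) : l ≠ i ∧ ¬ w i l = 1 ↔ l = j := by simpa using Finset.ext_iff.1 hj l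
  exact ⟨j, ((m j).2 rfl).1, ((m j).2 rfl).2, fun l h1 h3 => not_not.1 fun c => h3 ((m l).1 ⟨h1, c⟩)⟩

variable (sy : ∀ i j, w i j = w j i)

include sy

theorem b_symm (x y : Fin n → ℝ) : b w x y = b w y x := by
  have e (x y : Fin n → ℝ) : ∑ k, ∑ l, (w k l : ℝ) * (x k * y l) = ∑ k, ∑ l, (w k l : ℝ) * (y k * x l) := by
    rw [sum_comm]
    exact sum_congr rfl fun k _ => sum_congr rfl fun l _ => by rw [sy, mul_comm (x l)]
  simp only [b, mul_sub, sum_sub_distrib, mul_comm (x _) (y _)]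
  rw [← e x y]
  simp only [mul_comm (x _) (y _)]

omit sy in
theorem b_one (i : Fin n) (y : Fin n → ℝ) :
    b w (Pi.single i 1) y = ∑ l, w i l * (y i - y l) := by
  rw [b, sum_eq_single i (fun k _ h => by simp [h]) (by simp)]
  simp

theorem b_vec (i j : Fin n) (c d : ℝ) (y : Fin n → ℝ) :
    b w (fun k => (Pi.single i 1 : Fin n → ℝ) k + c * (Pi.single j 1 : Fin n → ℝ) k + d) y =
      ∑ l, w i l * (y i - y l) + c * ∑ l, w j l * (y j - y l) := by
  have : b w (fun _ => d) y = 0 := by rw [b_symm w sy]; simp [b]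
  rw [← b_one, ← b_one, ← add_zero (_ + _), ← this]
  simp only [b, mul_sum, ← sum_add_distrib]
  exact sum_congr rfl fun k _ => sum_congr rfl fun l _ => by ring

theorem core (h0 : ∀ i, w i i = 0) (h2 : ∀ i j, w i j ≤ 2) (he : ∀ i, Even (∑ j, w i j))
    (hn : 2 ≤ n) (α β : ℝ) (hq : ∀ x : Fin n → ℝ, ∑ i, x i = 0 →
      2 * α * ∑ i, x i ^ 2 ≤ b w x x ∧ b w x x ≤ 2 * β * ∑ i, x i ^ 2) (s1 : β - α ≤ 1) :
    (∃ c, ∀ i j, j ≠ i → w i j = c) ∨ (4 ≤ n ∧ Even n ∧ 1 ≤ β - α ∧
      ((∀ i, ∑ j, w i j + 2 = n) ∨ ∀ i, ∑ j, w i j = n)) := by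
  obtain ⟨N, hN⟩ : ∃ N, n = N + 1 := ⟨n - 1, by omega⟩
  have n0 : (0 : ℝ) < n := by exact_mod_cast (by omega : 0 < n)
  have nN : (n : ℝ) = N + 1 := by exact_mod_cast hN
  have R (i : Fin n) := row w i (h0 i) (h2 i) _ rfl (he i) N hN (by omega) ((α + β) / n) (by
    set t := (α + β) / n
    set s : ℝ := (∑ j, w i j : ℕ) - N * t with hs
    let y : Fin n → ℝ := fun j => if j = i then s else t - w i j
    let x : Fin n → ℝ := fun k =>
      (Pi.single i 1 : Fin n → ℝ) k + 0 * (Pi.single i 1 : Fin n → ℝ) k + -(1 / n)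
    have sp (f : Fin n → ℝ) : ∑ j, f j = f i + ∑ j ∈ univ.erase i, f j :=
      (add_sum_erase _ _ (mem_univ i)).symm
    have ey (f : ℝ → Fin n → ℝ) : ∑ j ∈ univ.erase i, f (y j) j =
        ∑ j ∈ univ.erase i, f (t - w i j) j :=
      sum_congr rfl fun j hj => by rw [show y j = _ from if_neg (ne_of_mem_erase hj)]
    have yi : y i = s := if_pos rfl
    have sw : ∑ j ∈ univ.erase i, (w i j : ℝ) = s + N * t := by
      rw [hs, ← Nat.cast_sum, sum_erase _ (h0 i), sub_add_cancel]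
    have cN : #(univ.erase i) = N := by simp [hN]
    have y0 : ∑ j, y j = 0 := by
      rw [sp, yi, ey fun a _ => a, sum_sub_distrib, sw, sum_const, cN, nsmul_eq_mul]
      ring
    have x0 : ∑ j, x j = 0 := by simp [x, sum_add_distrib, n0.ne']
    have x2 : ∑ j, x j ^ 2 = 1 - 1 / n := by
      simp [x, add_sq, sum_add_distrib, Pi.single_apply]
      field_simp
      ring
    have xy : ∑ j, x j * y j = s := by
      simp [x, add_mul, sum_add_distrib, Pi.single_apply, ← mul_sum, y0, yi]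
    have y2 : ∑ j, y j ^ 2 = ∑ j ∈ univ.erase i, ((w i j : ℝ) - t) ^ 2 + s ^ 2 := by
      rw [sp, yi, ey fun a _ => a ^ 2, add_comm]
      simp only [sub_sq_comm t]
    have bxy : b w x y = ∑ j, y j ^ 2 + (α + β) * s := by
      rw [b_vec w sy, zero_mul, add_zero, sp, y2, yi, ey fun a j => w i j * (s - a),
        show α + β = t * (N + 1) by rw [← nN]; simp [t, n0.ne']]
      have e : ∑ j ∈ univ.erase i, (w i j : ℝ) * (s - (t - w i j)) =
          ∑ j ∈ univ.erase i, (((w i j : ℝ) - t) ^ 2 + ((s + t) * w i j - t ^ 2)) :=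
        sum_congr rfl fun j _ => by ring
      rw [e, sum_add_distrib, sum_sub_distrib, ← mul_sum, sw, sum_const, cN, nsmul_eq_mul]
      ring
    have a1 := (hq (fun j => x j + y j) (by rw [sum_add_distrib, x0, y0, add_zero])).2
    have a2 := (hq (fun j => x j - y j) (by rw [sum_sub_distrib, x0, y0, sub_zero])).1
    have a3 : b w (fun j => x j + y j) (fun j => x j + y j) -
        b w (fun j => x j - y j) (fun j => x j - y j) = 2 * b w x y + 2 * b w y x := by
      simp only [b, mul_sum, ← sum_add_distrib, ← sum_sub_distrib]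
      exact sum_congr rfl fun k _ => sum_congr rfl fun l _ => by ring
    simp only [add_sq, sub_sq, mul_assoc, sum_add_distrib, sum_sub_distrib, ← mul_sum, xy] at a1 a2
    rw [b_symm w sy y, bxy] at a3
    rw [← y2, ← x2]
    have := sum_nonneg fun j (_ : j ∈ univ) => sq_nonneg (x j)
    have := sum_nonneg fun j (_ : j ∈ univ) => sq_nonneg (y j)
    nlinarith)
  let i : Fin n := ⟨0, by omega⟩
  have eq (j : Fin n) : ∑ l, w j l = ∑ l, w i l := by
    obtain ⟨a, ha⟩ := he j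
    obtain ⟨c, hc⟩ := he i
    have h1 := abs_lt.1 (R j).1
    have h3 := abs_lt.1 (R i).1
    rw [ha] at h1 ⊢
    rw [hc] at h3 ⊢
    push_cast at h1 h3
    have : a < c + 1 := by exact_mod_cast (by linarith : (a : ℝ) < c + 1)
    have : c < a + 1 := by exact_mod_cast (by linarith : (c : ℝ) < a + 1)
    omega
  by_cases hp : ∀ i j, j ≠ i → N * w i j = ∑ l, w i l
  · refine .inl ⟨(∑ l, w i l) / N, fun k j h => ?_⟩
    rw [← eq k, ← hp k j h, Nat.mul_div_cancel_left _ (by omega)]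
  push Not at hp
  obtain ⟨k, k', hk, hk'⟩ := hp
  obtain ⟨N3, hs, j, jk, j1, hj⟩ := (R k).2.resolve_left fun h => hk' (h k' hk)
  obtain ⟨-, -, j', -, -, hj'⟩ := (R j).2.resolve_left fun h => by
    have := h k jk.symm
    have := h2 j k
    rw [eq j, ← eq k] at *
    interval_cases w j k <;> omega
  obtain rfl : k = j' := not_not.1 fun c => j1 (sy k j ▸ hj' k jk.symm c)
  have ev := he k
  refine .inr ⟨by omega, by rw [Nat.even_iff] at *; omega, ?_, by
    have := eq k
    rcases hs with h | h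
    exacts [.inl fun l => by have := eq l; omega, .inr fun l => by have := eq l; omega]⟩
  have n2 : (2 : ℝ) < n := by exact_mod_cast (by omega : 2 < n)
  have S (c d : ℝ) (hc : c ^ 2 = 1) (hd : 1 + c + n * d = 0) := hq
    (fun l => (Pi.single k 1 : Fin n → ℝ) l + c * (Pi.single j 1 : Fin n → ℝ) l + d)
    (by simpa [sum_add_distrib, Pi.single_apply] using hd)
  have two (f : Fin n → ℝ) (c : ℝ) (h : ∀ l, l ≠ k → l ≠ j → f l = c) :
      ∑ l, f l = f k + f j + (n - 2) * c := by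
    rw [← add_sum_erase _ _ (mem_univ k), ← add_sum_erase _ _ (mem_erase.2 ⟨jk, mem_univ j⟩),
      sum_congr rfl fun l hl => h l (by simp_all) (by simp_all), add_assoc]
    simp [card_erase_of_mem, jk, Nat.sub_sub, hn]
  have T (c d : ℝ) (hc : c ^ 2 = 1) (hd : 1 + c + n * d = 0) := S c d hc hd
  simp only [b_vec w sy] at T
  have T1 := T 1 (-2 / n) (by norm_num) (by field_simp; norm_num)
  have T2 := T (-1) 0 (by norm_num) (by norm_num)
  rw [two _ ((-2 / n) ^ 2) fun l a b => by simp [a, b], two _ 1 fun l a b => by simp [a, b, hj, jk.symm],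
    two _ 1 fun l a b => by simp [a, b, hj', jk]] at T1
  rw [two _ 0 fun l a b => by simp [a, b], two _ 1 fun l a b => by simp [a, b, hj, jk.symm],
    two _ (-1) fun l a b => by simp [a, b, hj', jk]] at T2
  simp [jk, jk.symm, sy j k] at T1 T2
  rw [show (1 + -2 / n) ^ 2 + (1 + -2 / n) ^ 2 + (n - 2) * (-2 / n) ^ 2 = (n - 2 + (n - 2)) / (n : ℝ)
    by field_simp; ring, ← mul_div_assoc, ← mul_div_assoc, div_le_iff₀ n0, le_div_iff₀ n0] at T1
  have := h2 k j
  interval_cases w k j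
  · push_cast at T2
    nlinarith
  · omega
  · push_cast at T2
    nlinarith

end Pool.Agent.H.MP_6838a0_co.A
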