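import Pool.Agent.H.MP_6838a0_co.A

namespace Pool.Agent.H.MP_6838a0_co.B

open Finset Matrix

open Classical in
noncomputable def lap {n : ℕ} (E : Fin n → Fin n → Prop) : Matrix (Fin n) (Fin n) ℝ :=
  diagonal (fun i => (#{j | E i j} : ℝ)) - of fun i j => if E i j then 1 else 0

def W {n : ℕ} (E : Fin n → Fin n → Prop) : Set ℝ :=
  {w | ∃ x : Fin n → ℝ, ∑ i, x i = 0 ∧ ∑ i, x i ^ 2 = 1 ∧ w = x ⬝ᵥ lap E *ᵥ x}

noncomputable def spread {n : ℕ} (E : Fin n → Fin n → Prop) : ℝ := sSup (W E) - sInf (W E)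

open Classical in
theorem form {n : ℕ} (E : Fin n → Fin n → Prop) (x : Fin n → ℝ) :
    x ⬝ᵥ lap E *ᵥ x = ∑ i, ∑ j, if E i j then x i * (x i - x j) else 0 := by
  rw [lap, sub_mulVec, dotProduct]
  refine sum_congr rfl fun i _ => ?_
  rw [Pi.sub_apply, mulVec_diagonal, card_filter, mulVec, dotProduct]
  push_cast
  rw [sum_mul, ← sum_sub_distrib, mul_sum]
  exact sum_congr rfl fun j _ => by by_cases h : E i j <;> simp [h]

theorem bdd {n : ℕ} (E : Fin n → Fin n → Prop) (w : ℝ) (h : w ∈ W E) : |w| ≤ ∑ _i : Fin n, ∑ _j : Fin n, 2 := by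
  obtain ⟨x, -, h, rfl⟩ := h
  have (i : Fin n) : x i ^ 2 ≤ 1 := h ▸ single_le_sum (f := fun i => x i ^ 2)
    (fun _ _ => sq_nonneg _) (mem_univ i)
  rw [form]
  refine (abs_sum_le_sum_abs _ _).trans (sum_le_sum fun i _ =>
    (abs_sum_le_sum_abs _ _).trans (sum_le_sum fun j _ => ?_))
  split_ifs
  · rw [abs_le]
    constructor <;> nlinarith [this i, this j, sq_nonneg (x i + x j), sq_nonneg (x i - x j)]
  · simp

theorem mem {n : ℕ} (E : Fin n → Fin n → Prop) (x : Fin n → ℝ) (h : ∑ i, x i = 0) (s : ℝ)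
    (hs : ∑ i, x i ^ 2 = s) (s0 : 0 < s) : (x ⬝ᵥ lap E *ᵥ x) / s ∈ W E := by
  have := Real.sq_sqrt s0.le
  have p := Real.sqrt_pos.2 s0
  refine ⟨(√s)⁻¹ • x, by simp [← mul_sum, h], ?_, ?_⟩
  · simp only [Pi.smul_apply, smul_eq_mul, mul_pow, ← mul_sum, hs, inv_pow, this]
    field_simp
  · rw [mulVec_smul, smul_dotProduct, dotProduct_smul, smul_smul, ← sq, inv_pow, this, smul_eq_mul]
    field_simp

open A

open Classical in
theorem both {n : ℕ} (hn : 2 ≤ n) (E : Fin n → Fin n → Prop) (hE : ∀ i, ¬ E i i)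
    (hb : ∀ i, #{j | E i j} = #{j | E j i}) (h1 : spread E ≤ 1) : spread E = 0 ∨
    (4 ≤ n ∧ Even n ∧ 1 ≤ spread E ∧
      ((∀ i, 2 * #{j | E i j} + 2 = n) ∨ ∀ i, 2 * #{j | E i j} = n)) := by
  let w (i j : Fin n) : ℕ := (if E i j then 1 else 0) + if E j i then 1 else 0
  have sw (i : Fin n) : ∑ j, w i j = 2 * #{j | E i j} := by
    rw [sum_add_distrib, ← card_filter, ← card_filter, ← hb, two_mul]
  have bq (x : Fin n → ℝ) : b w x x = 2 * (x ⬝ᵥ lap E *ᵥ x) := by
    have e : ∑ i, ∑ j, (if E j i then x i * x i else 0) = ∑ i, ∑ j, if E i j then x i * x i else 0 :=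
      sum_congr rfl fun i _ => by rw [← sum_filter, ← sum_filter, sum_const, sum_const, hb]
    have e' : ∑ i, ∑ j, (if E j i then x i * x j else 0) = ∑ i, ∑ j, if E i j then x i * x j else 0 := by
      rw [sum_comm]
      simp only [mul_comm]
    have f (P : Fin n → Fin n → Prop) : ∑ i, ∑ j, (if P i j then x i * (x i - x j) else 0) =
        ∑ i, ∑ j, (if P i j then x i * x i else 0) - ∑ i, ∑ j, if P i j then x i * x j else 0 := by
      simp only [← sum_sub_distrib]
      exact sum_congr rfl fun i _ => sum_congr rfl fun j _ => by split_ifs <;> ring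
    rw [form, two_mul]
    nth_rw 2 [f]
    rw [← e, ← e', ← f fun i j => E j i]
    simp [b, w, add_mul, sum_add_distrib]
  have bd := fun v h => abs_le.1 (bdd E v h)
  rcases core w (fun i j => add_comm _ _) (fun i => by simp [w, hE]) (fun i j => by
    simp only [w]; split_ifs <;> omega) (fun i => sw i ▸ even_two_mul _) hn (sInf (W E)) (sSup (W E))
    (fun x hx => by
      rcases (sum_nonneg fun j (_ : j ∈ univ) => sq_nonneg (x j)).eq_or_lt with z | z
      · have (j : Fin n) : x j = 0 := by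
          simpa using (sum_eq_zero_iff_of_nonneg fun j _ => sq_nonneg (x j)).1 z.symm j (mem_univ j)
        simp [b, this]
      have m := mem E x hx _ rfl z
      have a1 := (le_div_iff₀ z).1 (csInf_le ⟨_, fun v h => (bd v h).1⟩ m)
      have a2 := (div_le_iff₀ z).1 (le_csSup ⟨_, fun v h => (bd v h).2⟩ m)
      rw [bq]
      constructor <;> linarith) h1 with ⟨c, hc⟩ | h
  · have : (W E).Subsingleton := Set.subsingleton_of_forall_eq (c * n / 2) (by
      rintro _ ⟨x, h0, h1, rfl⟩
      have : b w x x = ∑ k, ∑ l, c * (x k * (x k - x l)) :=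
        sum_congr rfl fun k _ => sum_congr rfl fun l _ => by
          by_cases h : l = k
          · simp [h]
          · rw [hc k l h]
      simp only [mul_sub, sum_sub_distrib, ← mul_sum, h0, ← sq, sum_const, nsmul_eq_mul, h1, bq,
        card_univ, Fintype.card_fin] at this
      simp at this
      linarith)
    rcases this.eq_empty_or_singleton with e | ⟨v, e⟩ <;> simp [spread, e]
  · simp only [sw] at h
    exact .inr h

end Pool.Agent.H.MP_6838a0_co.B
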